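import Pool.Agent.N876.IS1.Proof

/-!
# Étale motivic cohomology in weights larger than the dimension for products with cyclic coverings branched along hyperplanes: structure up to finite groups

Let `κ` be a finite field with `q = c ^ f` elements, and `𝒱` a class of smooth projective varieties over
`κ`, closed under products, with Chow groups `A` with rational coefficients and a Weil cohomology theory
`H` (framework of helper492 and helper484: `TheoryData`, `IsChow`, `IsWeil`). Let `X_i` be varieties in
`𝒱`, of any dimensions `n_i`, which are models of cyclic coverings

  `w ^ N_i = ∏ l_{i,k} (x) ^ a_{i,k}`

of projective spaces, branched along hyperplanes `l_{i,k} = 0` over `κ`, with exponents prime to `N_i`,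
where `N_i` divides `q - 1` (`IsModel`, see the definitions: the cohomology is generated by the
classes of cycles and a part `T`, pure of weight `n_i`, without invariants under the covering
group, for which the trace formula holds). Let `N` be a common multiple of the `N_i`, and `λ` an
integer such that `IsSmall N λ` holds: for every nonempty finite set `I` of indices and all `j_i` not
divisible by `N_i` (`i ∈ I`) there is a `u` prime to `N` with
`∑_{i ∈ I} weight X_i (u j_i) + λ / 2 < ∑_{i ∈ I} (n_i / 2 + 1)`; here `weight X j` is the mean over the
orbit `j, c j, …, c ^ (f - 1) j` of the sum of the fractional parts of `j a_k / N_i`.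

Let `U` be **any** smooth proper variety over `κ`, of dimension `e`, and `Z` a variety in `𝒱` (for example a
point). Fix an integer `k`. For `X` in `𝒱` and integers `n` let
* `G X n = H^{2n-k}((X × U)_et, ℤ(n))`; if `D = dim X + e` and `n > D`, this is the group
  `H^i((X × U)_et, ℤ^c(D - n))` of the question, where `i = 2 (n - D) - k`, and `i ≤ -2 (D - n) + 1` if and
  only if `k ≥ -1`,
* `T^n(X) = H^{2n-k}(X × U, ℚ(n)) = CH^n(X × U, k) ⊗ ℚ = G X n ⊗ ℚ`, and `φ` the Frobenius endomorphism of `U`
  on `T`.
The following facts are known and enter as hypotheses (`IsEtale`, `IsRelative`): a multiple of each
correspondence between `X` and `Y` operates on the groups `G`, compatibly with `G X n → T^n(X)`; for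
`n > dim X + e` the torsion of `G X n` is finite, and so are the groups `G X n / N` (they are a quotient of
`H^{2n-k-1}_et(X × U, ℚ/ℤ(n))` and a subgroup of `H^{2n-k}_et(X × U, ℤ/N(n))`, which are finite by the
theorems of Deligne and Gabber); the product of `φ` and the Frobenius endomorphism of `X` is `q ^ n` on
`T^n(X)`. Let `χ` be a polynomial with rational coefficients which is satisfied by `φ`. Such a polynomial
exists if the motive of `U` is finite-dimensional. We assume that the products `b` of the eigenvalues of
the Frobenius on `H(Z)` and the complex roots of `χ` are algebraic with `|b| ^ 2 = q ^ j` (theorem of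
Deligne) and that
* either `λ = 0` and the cyclotomic polynomial of order `N` is irreducible over the field generated by
  the numbers `b` (for given `Z` and `U` this is true for all `N` prime to the discriminant of this field),
* or `Z × U` is of level `≤ λ`: the numbers `q ^ λ b / b̄` are algebraic integers. This is true if
  `dim Z + dim U ≤ λ`.
Finally the homologically trivial self-correspondences of degree zero of the products `V` of `Z` and
different `X_i` are assumed to be nilpotent (nothing of this kind is assumed for `U`); this holds if `Z` is
a point (or dominated by a product of curves) and the `X_i` are curves or have `n_i + 2` branch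
hyperplanes in general position, by the theorem of Kimura and O'Sullivan.

**Theorem.** Let `V` be the product of `Z` and of finitely many of the `X_i` (pairwise different), and
`d = dim V - dim Z`. There are finitely many numbers `deg j ∈ [0, d]`, among them all integers in this
interval (the degrees of the algebraic cycles on the `X_i`), such that **for all `U`, all degrees and all
weights `n > dim V + e` there is a homomorphism with finite kernel and cokernel**

  `⨁ j, H^{2(n - deg j) - k}((Z × U)_et, ℤ(n - deg j)) → H^{2n-k}((V × U)_et, ℤ(n))`.

So `H^i((V × U)_et, ℤ^c(n))`, `n < 0`, is finitely generated, finite, or of cofinite type if and only if so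
are the corresponding groups of `Z × U`, that is (projective bundle formula) those of `ℙ^d × Z × U`: **Q1 and
its refined form for `V × U` and `ℙ^d × Z × U` are equivalent**, degree by degree; they are true if `Z` and `U`
are points, curves or products of curves in the class of Soulé and Geisser.

The hand-in MP_e93a6a_ag.HyperplaneCoverings has the equivalence of finite generation for arbitrary schemes
`U`; its proof compares the groups with rational coefficients and uses bounds of the torsion. New here are
the homomorphisms of the integral groups, that is the structure up to finite groups, and the
equivalence of finiteness; and nilpotence is only used for products of different `X_i`.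

Examples. (a) Let `X_i` be curves `y ^ N_i = ∏ (x - x_{i,k})` with `N_i` factors, of genus
`(N_i - 1) (N_i - 2) / 2`, for different prime numbers `N_i` dividing `c - 1`. Then `weight X_i j` is the
residue of `j` modulo `N_i`, and `IsSmall N 0` holds for the product `N` of the `N_i` (take `u` with
`u j_i = 1` modulo `N_i`). (b) Let `X` be the variety `w ^ N = l_1 ⋯ l_N` of dimension `n = N - 2`, with
`N` hyperplanes in general position, for a prime number `N` dividing `c - 1` (the resolutions are
Calabi-Yau varieties). The weight for `u j = 1` is `1`, so `IsSmall N λ` holds for all `λ < n`: the
theorem applies to **all smooth proper varieties `U` of dimension smaller than `dim X`** with a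
polynomial `χ`.

The proof: by the theorem of Stickelberger on Gauss sums and the product formula no product of
eigenvalues of the Frobenius on the parts `T` of several `X_i` and on the cohomology of `Z × U` is a
power of `q`. So the intersection pairing on the algebraic classes of `X_i` is not degenerate; let
`D j`, `E j` be dual systems of cycles on `X_i`. The eigenvalues of Frobenius and nilpotence give
`T (X_i × V') = ⨁ D j × T (V')` (the idea to play the eigenvalues of Frobenius off against nilpotence is due
to Soulé, Geisser and Kahn). Multiples of the correspondences `x ↦ D j × x` and `y ↦ E j^* y` lift to the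
groups `G`; since the torsion of these groups is finite, a multiple of the identity of `G (X_i × V') n` is a
sum of products of them. So the sum of the first ones has a finite kernel, and its cokernel is killed
by an integer `N` and a quotient of the finite group `G / N`. For products of several `X_i` one
composes these homomorphisms.

helper876; built on the library of the starting files (estimates of sums over hyperplane
arrangements by Gauss sums: helper528 and helpers 800, 883, 135, 563, 271, 540, 400, 999, 782, 605,
346; traces on eigenspaces: helper117; correspondences, nilpotence and the Kunneth formula: helpers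
484, 492, 550; the idea to work relative to a scheme: helper156).
-/

set_option autoImplicit false

open Polynomial CategoryTheory AlgebraicGeometry

namespace Pool.Agent.Results.MP_c1eb4d_ag.HyperplaneCoverings

open Pool.Agent.H914 Pool.Agent.H914.VarClass Pool.Agent.H914.VarClass.Obj Pool.Agent.W492.BB
  Pool.Agent.W484.CK Pool.Agent.N876.IS1

/-- **Étale motivic cohomology in weights larger than the dimension for products with cyclic coverings
branched along hyperplanes: structure up to finite groups.** -/
theorem result (c : ℕ) [Fact c.Prime] (κ : Type) [Field κ] [Fintype κ] [CharP κ c] {ι : Type}
    (C : ι → Covering κ) (f N lam : ℕ) (hC : IsSmallSystem C c f N lam)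
    {𝒱 : VarClass κ} (A : TheoryData.{0, 0, 0} 𝒱 ℚ) [IsChow A] {K : Type} [Field K]
    [IsAlgClosed K] [CharZero K] (H : WeilTheoryData.{0, 0, 0} A K) [IsWeil H] (τ : K →+* ℂ)
    (F : ∀ X : 𝒱.Obj, X ⟶ X) (X : ι → 𝒱.Obj) (Z : 𝒱.Obj) (χ : ℚ[X])
    (h : IsCoveringSystem C N lam H τ F X Z χ)
    (hnil : ∀ L : List ι, L.Nodup → Nilpotence H (productOf X Z L))
    (L : List ι) (hL : L.Nodup) :
    ∃ (J : Type) (_ : Fintype J) (deg : J → ℕ), (∀ j, deg j ≤ dimension X L) ∧
      (∀ l ≤ dimension X L, ∃ j, deg j = l) ∧
      ∀ (T : MotivicData A) (φ : ∀ X, T.M X →ₗ[ℚ] T.M X),
        IsRelative T φ F (Fintype.card κ) χ → ∀ (e : ℕ) (G : 𝒱.Obj → ℤ → Type)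
        [∀ X n, AddCommGroup (G X n)] (r : ∀ X n, G X n → T.M X), IsEtale T e r →
        Conclusions e G (productOf X Z L) Z (dimension X L) deg :=
  main c κ C f N lam hC A H τ F X Z χ h hnil L hL

end Pool.Agent.Results.MP_c1eb4d_ag.HyperplaneCoverings
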