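import Pool.Agent.N522.AM.Main

/-!
# `MP_c1eb4d_ag`: weight `n = -1` and a window of degrees suffice
-/

namespace Pool.Agent.Results.MP_c1eb4d_ag.WeightAndDegreeWindow

open Pool.Agent.N522.AM

/-- The group `H^i(X_et, ℤ^c(-m)) = H^{2d + i}(X_et, ℤ(d + m))`, `d = dim X`, of a proper regular
arithmetic scheme. -/
abbrev Hc (T : Theory) (X : T.Obj) (m : ℕ) (i : ℤ) : Type :=
  T.H X (T.dim X + m) (2 * (T.dim X : ℤ) + i)

/-- Q1 for the objects of the class `S` and all integers `n = -m ≤ -m0`: finite generation in the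
degrees `i ≤ -2n + 1`. -/
def Q1 (T : Theory) (S : T.Obj → Prop) (m0 : ℕ) : Prop :=
  ∀ X, S X → ∀ m : ℕ, m0 ≤ m → ∀ i : ℤ, i ≤ 2 * (m : ℤ) + 1 → AddGroup.FG (Hc T X m i)

/-- The part of Q1 for `n = -1` and the degrees `-δ d ≤ i ≤ 3`, `i ≥ -2d`. -/
def Part (T : Theory) (S : T.Obj → Prop) (δ : ℚ) : Prop :=
  ∀ X, S X → ∀ i : ℤ, -(2 * (T.dim X : ℤ)) ≤ i → -δ * (T.dim X : ℚ) ≤ i → i ≤ 3 →
    AddGroup.FG (Hc T X 1 i)

/-- Let `S` be a class of proper regular connected arithmetic schemes closed under `X ↦ X × ℙ^r` and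
containing those that are projective and flat over `ℤ`, and let `δ > 0`.  Q1 for `S` is equivalent to
its part with `n = -1` and degrees `i ≥ -δ d`; it implies Q1 for smooth projective varieties over
finite fields and `n ≤ -2`, and the vanishing of the groups `H^k(X_et, ℤ(n))`, `k < 0`, `n > d`. -/
theorem result (T : Theory) (hT : Facts T) (S : T.Obj → Prop) (hS : Class T S) (δ : ℚ)
    (hδ : 0 < δ) :
    (Q1 T S 1 ↔ Part T S δ) ∧
    (Q1 T S 1 → Q1 T T.FiniteField 2 ∧ Vanishing T S 1 ∧ Vanishing T T.FiniteField 2) := by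
  have h1 := main T hT S hS 1 1 (2 - δ) (by linarith)
  have h3 : Part T S δ ↔ Window T S 1 1 (2 - δ) := by
    constructor
    · intro h X hX i hi hi' hi''
      have h4 := h X hX (i - 2 * (T.dim X : ℤ)) (by linarith)
        (by push_cast; linarith) (by push_cast at hi''; linarith)
      exact fg_cast T X rfl (by ring) h4
    · intro h X hX i hi hi' hi''
      refine h X hX _ (by linarith) ?_ ?_
      · push_cast; linarith
      · push_cast; linarith
  have h5 : ∀ (S' : T.Obj → Prop) (m0 : ℕ), Q1 T S' m0 ↔ AllWeights T S' m0 1 := by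
    intro S' m0
    constructor
    · intro h X hX n hn i hi
      have h6 := h X hX (n - T.dim X) (by omega) (i - 2 * (T.dim X : ℤ)) (by omega)
      exact fg_cast T X (by omega) (by ring) h6
    · intro h X hX m hm i hi
      exact h X hX _ (by omega) _ (by push_cast; linarith)
  refine ⟨⟨fun h => ?_, fun h => ?_⟩, fun h => ?_⟩
  · intro X hX i _ _ hi''
    exact h X hX 1 le_rfl i (by push_cast; linarith)
  · exact (h5 S 1).mpr (h1.mp (h3.mp h)).1
  · have h7 : Window T S 1 1 (2 - δ) := by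
      intro X hX i _ _ hi
      exact (h5 S 1).mp h X hX _ le_rfl i hi
    obtain ⟨-, h8, h9, h10⟩ := h1.mp h7
    exact ⟨(h5 _ 2).mpr h9, h8, h10⟩

end Pool.Agent.Results.MP_c1eb4d_ag.WeightAndDegreeWindow
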